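import Pool.Agent.W589.TropCycle
import Pool.Agent.W589.TropCone
import Pool.Agent.W589.TropSupp
import Pool.Agent.W589.TropGeom

/-!
# Leafwise complex cycles need not be superpositions of pseudoholomorphic curves

On `M = ℂⁿ × ℝᵏ`, `n ≥ 2`, with the product foliation by the leaves `ℂⁿ × {t}` and the standard
leafwise complex structure, the tropical current `c = dd^c max(Re z₁, Re z₂, 0)` (supported in the
plane `ℂ² × {0}`) is a `C`-cycle which in no neighbourhood of the vertex `0` is a non-negative
superposition of pseudoholomorphic curves.  Indeed almost every curve of such a superposition would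
be contained in the support of `c`, which consists of three Levi flat half hyperplanes meeting
along a totally real plane; each holomorphic curve contained in the support lies in a complex line
whose intersection with a small ball is not contained in the support.
-/

open scoped Manifold ContDiff Distributions Topology
open TopologicalSpace MeasureTheory Set Filter
open Pool.Agent.W589.Trop

noncomputable section

namespace Pool.Agent.Results.MP_03adb9_gt.TropicalCycle

variable {m k : ℕ}

lemma par_mem {d : ℝ × ℝ} (hd : d = (1, 1) ∨ d = (-1, 0) ∨ d = (0, -1)) {q : P3} (hq : 0 < q.1) :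
    (par d q : Mfd (m + 2) k) ∈ tropSet m k := by
  refine ⟨by simp [par_apply, vec], fun j => by rw [par_apply, vec_fst_succ], ?_⟩
  rw [par_apply, vec_fst_zero, vec_fst_one]
  rcases hd with rfl | rfl | rfl
  · left; simp [hq.le]
  · right; right; simp [hq.le]
  · right; left; simp [hq.le]

lemma omega_dir (d : ℝ × ℝ) : omega (m + 2) k ![dir d, stdJ (dir d)] =
    ∑ j, Complex.normSq ((dir d : Mfd (m + 2) k).1 j) := by
  have h : (dir d : Mfd (m + 2) k) = ((dir d : Mfd (m + 2) k).1, 0) := Prod.ext rfl rfl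
  conv_lhs => rw [h]
  rw [omega_J]

lemma piece_chi {d : ℝ × ℝ} (hd : d ≠ 0) {U : Opens (Mfd (m + 2) k)} {χ : Mfd (m + 2) k → ℝ}
    (h1 : ContDiff ℝ ∞ χ) (h2 : HasCompactSupport χ) (h3 : tsupport χ ⊆ U) :
    piece d (incl (chiForm U χ h1 h2 h3)) =
      ∫ q : P3 in {q | 0 < q.1}, χ (par d q) * omega (m + 2) k ![dir d, stdJ (dir d)] := by
  rw [piece_apply hd]
  rfl

lemma trop_apply (α : Forms (⊤ : Opens (Mfd (m + 2) k)) 2) :
    trop α = piece (1, 1) α + piece (-1, 0) α + piece (0, -1) α := rfl

/-- the tropical current is carried by its support -/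
lemma trop_chi_zero {U : Opens (Mfd (m + 2) k)} {χ : Mfd (m + 2) k → ℝ}
    (h1 : ContDiff ℝ ∞ χ) (h2 : HasCompactSupport χ) (h3 : tsupport χ ⊆ U)
    (h4 : ∀ x ∈ tropSet m k, χ x = 0) : trop (incl (chiForm U χ h1 h2 h3)) = 0 := by
  have hm : MeasurableSet {q : P3 | 0 < q.1} := (isOpen_lt continuous_const continuous_fst).measurableSet
  have key : ∀ d : ℝ × ℝ, (d = (1, 1) ∨ d = (-1, 0) ∨ d = (0, -1)) → d ≠ 0 →
      piece d (incl (chiForm U χ h1 h2 h3)) = 0 := by
    intro d hd hd0
    rw [piece_chi hd0]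
    rw [setIntegral_congr_fun (g := fun _ => 0) hm]
    · simp
    · intro q hq
      simp only [h4 _ (par_mem hd hq), zero_mul]
  rw [trop_apply, key _ (by simp) (by simp), key _ (by simp) (by simp), key _ (by simp) (by simp)]
  simp

/-- the tropical current is not zero near the vertex -/
lemma trop_chi_pos {U : Opens (Mfd (m + 2) k)} {χ : Mfd (m + 2) k → ℝ}
    (h1 : ContDiff ℝ ∞ χ) (h2 : HasCompactSupport χ) (h3 : tsupport χ ⊆ U)
    (h4 : ∀ x, 0 ≤ χ x) (h5 : χ 0 = 1) : 0 < trop (incl (chiForm U χ h1 h2 h3)) := by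
  have hm : MeasurableSet {q : P3 | 0 < q.1} := (isOpen_lt continuous_const continuous_fst).measurableSet
  have homega : ∀ d : ℝ × ℝ, 0 ≤ omega (m + 2) k ![dir d, stdJ (dir d)] := fun d => by
    rw [omega_dir]; exact Finset.sum_nonneg fun _ _ => Complex.normSq_nonneg _
  have hnn : ∀ d : ℝ × ℝ, d ≠ 0 → 0 ≤ piece d (incl (chiForm U χ h1 h2 h3)) := by
    intro d hd
    rw [piece_chi hd]
    exact setIntegral_nonneg hm fun q _ => mul_nonneg (h4 _) (homega d)
  have homega1 : 0 < omega (m + 2) k ![dir (1, 1), stdJ (dir (1, 1))] := by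
    rw [omega_dir]
    refine lt_of_lt_of_le ?_ (Finset.single_le_sum (f := fun j =>
      Complex.normSq ((dir (1, 1) : Mfd (m + 2) k).1 j)) (fun _ _ => Complex.normSq_nonneg _)
      (Finset.mem_univ 0))
    show 0 < Complex.normSq ((dir (1, 1) : Mfd (m + 2) k).1 0)
    rw [dir, vec_fst_zero]
    simp
  have hpos : 0 < piece (1, 1) (incl (chiForm U χ h1 h2 h3)) := by
    rw [piece_chi (by simp)]
    have hclosed : Topology.IsClosedEmbedding (par (1, 1) : P3 →ₗ[ℝ] Mfd (m + 2) k) :=
      LinearMap.isClosedEmbedding_of_injective (LinearMap.ker_eq_bot.2 (par_injective (by simp)))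
    have hcont : Continuous fun q : P3 => χ (par (1, 1) q) *
        omega (m + 2) k ![dir (1, 1), stdJ (dir (1, 1))] :=
      (h1.continuous.comp (par_continuous _)).mul continuous_const
    have hcs : HasCompactSupport fun q : P3 => χ (par (1, 1) q) *
        omega (m + 2) k ![dir (1, 1), stdJ (dir (1, 1))] :=
      (h2.comp_isClosedEmbedding hclosed).mul_right
    rw [setIntegral_pos_iff_support_of_nonneg_ae (Filter.Eventually.of_forall fun q =>
      mul_nonneg (h4 _) (homega _)) (hcont.integrable_of_hasCompactSupport hcs).integrableOn]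
    refine IsOpen.measure_pos _ ?_ ?_
    · exact (hcont.isOpen_support).inter (isOpen_lt continuous_const continuous_fst)
    · have hev : ∀ᶠ q : P3 in 𝓝 0, χ (par (1, 1) q) *
          omega (m + 2) k ![dir (1, 1), stdJ (dir (1, 1))] ≠ 0 := by
        apply hcont.continuousAt.eventually_ne
        rw [map_zero, h5, one_mul]
        exact homega1.ne'
      obtain ⟨ε, hε, hb⟩ := Metric.eventually_nhds_iff_ball.1 hev
      refine ⟨(ε / 2, 0), hb _ ?_, ?_⟩
      · rw [mem_ball_zero_iff, Prod.norm_def]
        simp only [Real.norm_eq_abs, norm_zero]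
        rw [abs_of_pos (by positivity)]
        exact max_lt (by linarith) hε
      · show 0 < ε / 2
        positivity
  rw [trop_apply]
  have := hnn (-1, 0) (by simp)
  have := hnn (0, -1) (by simp)
  linarith

/-- **Ghys' question has a negative answer in all leaf dimensions `2 n ≥ 4`.** For all `n ≥ 2` and
all `k`, on the manifold `M = ℂⁿ × ℝᵏ` with the product foliation by the leaves `ℂⁿ × {t}` and the
standard leafwise complex structure there is a `C`-cycle `c` such that for every open neighbourhood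
`U` of the point `0` the restriction of `c` to `U` is not a non-negative superposition of
pseudoholomorphic curves in `U`. -/
theorem result (n k : ℕ) (hn : 2 ≤ n) :
    HasBadCycle (E := Mfd n k) prodT prodLeaf prodJ 0 := by
  obtain ⟨m, rfl⟩ : ∃ m, n = m + 2 := ⟨n - 2, by omega⟩
  refine ⟨trop, trop_isCCurrent, trop_isCycle, ?_⟩
  rintro U hU ⟨mS, ν, hint, heq⟩
  -- a ball around the vertex and a bump function
  obtain ⟨r, hr, hrU⟩ := Metric.isOpen_iff.1 U.isOpen 0 hU
  obtain ⟨χ0, hs0, hc0, hd0, hr0, h01⟩ := exists_contDiff_tsupport_subset (n := (⊤ : ℕ∞))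
    (Metric.ball_mem_nhds (0 : Mfd (m + 2) k) hr)
  have hχ0 : ∀ x, 0 ≤ χ0 x := fun x => (hr0 (mem_range_self x)).1
  -- bump functions in the complement of the support
  have hbump : ∀ x : Mfd (m + 2) k, x ∈ (U : Set (Mfd (m + 2) k)) \ tropSet m k →
      ∃ χ : Mfd (m + 2) k → ℝ, tsupport χ ⊆ (U : Set (Mfd (m + 2) k)) \ tropSet m k ∧
        HasCompactSupport χ ∧ ContDiff ℝ ∞ χ ∧ (∀ y, 0 ≤ χ y) ∧ χ x = 1 := by
    intro x hx
    obtain ⟨χ, hs, hc, hd, hr', h1⟩ := exists_contDiff_tsupport_subset (n := (⊤ : ℕ∞))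
      ((U.isOpen.sdiff isClosed_tropSet).mem_nhds hx)
    exact ⟨χ, hs, hc, hd, fun y => (hr' (mem_range_self y)).1, h1⟩
  choose! χ hs hc hd hnn h1 using hbump
  obtain ⟨T, hTsub, hTc, hTcover⟩ := countable_cover_nhdsWithin
    (f := fun x => {y | χ x y ≠ 0}) (s := (U : Set (Mfd (m + 2) k)) \ tropSet m k) (by
      intro x hx
      refine mem_nhdsWithin_of_mem_nhds ?_
      exact (hd x hx).continuous.continuousAt.eventually_ne (by rw [h1 x hx]; exact one_ne_zero))
  have hae : ∀ x ∈ T, ∀ᵐ c' : curves prodLeaf prodJ U ∂ν, ∀ hx : x ∈ (U : Set (Mfd (m + 2) k)) \ tropSet m k,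
      (c' : Current U 2) (chiForm U (χ x) (hd x hx) (hc x hx)
        ((hs x hx).trans sdiff_subset)) = 0 := by
    intro x hxT
    have hx := hTsub hxT
    set α := chiForm U (χ x) (hd x hx) (hc x hx) ((hs x hx).trans sdiff_subset) with hα
    have hα0 : ∫ c' : curves prodLeaf prodJ U, (c' : Current U 2) α ∂ν = 0 := by
      rw [← heq α]
      exact trop_chi_zero _ _ _ fun y hy => by
        by_contra hne
        exact (hs x hx (subset_tsupport _ hne)).2 hy
    have hnonneg : 0 ≤ fun c' : curves prodLeaf prodJ U => (c' : Current U 2) α := by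
      rintro ⟨c', S, i1, i2, i3, i4, i5, i6, u, ρ, hu, hρ, hcu⟩
      show 0 ≤ c' α
      rw [hcu]
      exact curveIntegral_nonneg _ _ _ hu ρ (hnn x hx)
    have := (integral_eq_zero_iff_of_nonneg hnonneg (hint α)).1 hα0
    filter_upwards [this] with c' hc' _
    exact hc'
  have hae' := (ae_ball_iff hTc).2 hae
  -- the mass near the vertex
  have hzero : ∫ c' : curves prodLeaf prodJ U, (c' : Current U 2) (chiForm U χ0 hd0 hc0 (hs0.trans hrU)) ∂ν = 0 := by
    rw [integral_congr_ae (g := fun _ => 0)]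
    · simp
    filter_upwards [hae'] with c' hc'
    obtain ⟨c', S, i1, i2, i3, i4, i5, i6, u, ρ, hu, hρ, hcu⟩ := c'
    show c' _ = 0
    have hmem : ∀ z, (u z : Mfd (m + 2) k) ∈ tropSet m k := by
      intro z
      by_contra hz
      have hzU : (u z : Mfd (m + 2) k) ∈ (U : Set (Mfd (m + 2) k)) \ tropSet m k := ⟨(u z).2, hz⟩
      obtain ⟨x, hxT, hxz⟩ := mem_iUnion₂.1 (hTcover hzU)
      apply hxz
      have hx := hTsub hxT
      have h2 := hc' x hxT hx
      change c' _ = 0 at h2
      rw [hcu] at h2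
      exact vanish_of_curveIntegral _ _ _ hu ρ hρ (hnn x hx) h2 z
    rw [hcu]
    refine curveIntegral_eq_zero _ _ _ hu ρ fun z => ?_
    by_contra hne
    exact not_mem_ball hu hmem hr hrU z (hs0 (subset_tsupport _ hne))
  have hpos := trop_chi_pos hd0 hc0 (hs0.trans hrU) hχ0 h01
  have h2 := heq (chiForm U χ0 hd0 hc0 (hs0.trans hrU))
  rw [hzero] at h2
  exact hpos.ne' h2

end Pool.Agent.Results.MP_03adb9_gt.TropicalCycle
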